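import Pool.Agent.W555.ZL
import Pool.Agent.W567.Spencer2
import Pool.Agent.H902R3.ZA.LBM
import Pool.Agent.H902R3.ZA.PLA
import Pool.Agent.H902R3.ZA.PLN
import Pool.Agent.H902R3.ZA.RES
import Pool.Agent.H902R3.ZA.DOM
import Pool.Agent.H902R3.ZA.SEC
import Pool.Agent.H902R3.ZA.SC
import Pool.Agent.H902R3.ZA.LAW
import Pool.Agent.H902R3.ZA.LOW
import Pool.Agent.H902R3.ZA.PHI
import Pool.Agent.H902R3.ZA.ROT
import Pool.Agent.H902R3.ZA.QJ
import Pool.Agent.H902R3.ZA.JEN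
import Pool.Agent.H902R3.ZA.MEAN
import Pool.Agent.H902R3.ZA.FIX
import Pool.Agent.H902R3.ZA.TWO
import Pool.Agent.H902R3.ZA.SHI
import Pool.Agent.H902R3.ZA.AVG
import Pool.Agent.H902R3.ZA.COL
import Pool.Agent.H902R3.ZA.STEPL
import Pool.Agent.H902R3.ZA.STEP
import Pool.Agent.H902R3.ZA.ITER
import Pool.Agent.H902R3.ZA.ZSUP
import Pool.Agent.H172R2.ZS.LEW
import Pool.Agent.H172R2.ZS.BAS
import Pool.Agent.H172R2.ZS.ONE
import Pool.Agent.H172R2.ZS.DET
import Pool.Agent.H172R2.ZS.MAP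
import Pool.Agent.H172R2.ZS.GAU
import Pool.Agent.H172R2.GS.HAM

/-!
# Vector balancing constant of zonotopes

`vb(K, K) ≤ C √d` for zonotopes `K` in `ℝ^d`: sparsify `K` to a sum of `O(d)` segments, reduce to
at most `d` fractional signs, and round them by the linear discrepancy form of Spencer's theorem.
-/

set_option autoImplicit false

open Finset
open scoped RealInnerProductSpace

namespace Pool.Agent.H782_VB

open Pool.Agent.H902R3.ZA Pool.Agent.H172R2.ZS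

/-- all steps of the sparsification together -/
theorem iter : S_ITER := by
  have hGAU : Pool.Agent.H172R2.ZS.S_GAU := GAU_ok (MAP_ok ONE_ok BAS_ok DET_ok)
  have hHAM : Pool.Agent.H172R2.ZS.S_HAM := Pool.Agent.H172R2.GS.HAM_ok
  have hPLN : S_PLN := PLN_ok (PLA_ok LBM_ok)
  have hDOM : S_DOM := DOM_ok RES_ok
  have hSC : S_SC := SC_ok RES_ok (SEC_ok hPLN)
  have hLOW : S_LOW := LOW_ok hDOM hSC LAW_ok hGAU
  have hJEN : S_JEN := JEN_ok hPLN ROT_ok QJ_ok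
  have hTWO : S_TWO := TWO_ok hLOW PHI_ok hJEN MEAN_ok (FIX_ok PHI_ok)
  have hCOL : S_COL := COL_ok SHI_ok AVG_ok hHAM
  exact ITER_ok (STEP_ok (STEPL_ok hTWO hCOL) LEW_ok BAS_ok)

/-- every zonotope contains, and is contained in `3/2` times, a sum of `O(d)` segments -/
theorem sandwich : ∃ C : ℝ, 1 ≤ C ∧ ∀ (d m : ℕ) (v : Fin m → E d),
    ∃ (N : ℕ) (w : Fin N → E d), (N : ℝ) ≤ C * d ∧ Zon w ⊆ Zon v ∧
      ∀ x ∈ Zon v, ∃ y ∈ Zon w, x = (3 / 2 : ℝ) • y := by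
  obtain ⟨C, hC, h⟩ := Pool.Agent.W555.ZL.vec iter
  refine ⟨4 * C + 1, by linarith, fun d m v => ?_⟩
  obtain ⟨N, w, hN, hw⟩ := h d m v (1 / 2) (by norm_num) le_rfl
  refine ⟨N, w, ?_, ?_, ?_⟩
  · refine hN.trans ?_
    have h1 : (0 : ℝ) ≤ d := Nat.cast_nonneg d
    have h2 : C * d / (1 / 2 : ℝ) ^ 2 = 4 * C * d := by ring
    rw [h2]; nlinarith
  · intro x hx
    obtain ⟨z, hz, hzx⟩ := ZSUP_ok d m N v w 1 (by norm_num) (fun x => by
      rw [one_mul]; exact (hw x).1) x hx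
    rw [hzx, one_smul]; exact hz
  · intro x hx
    exact ZSUP_ok d N m w v (3 / 2) (by norm_num) (fun x => by
      have := (hw x).2
      norm_num at this ⊢
      exact this) x hx

/-- the main bound, Euclidean form -/
theorem main : ∃ C : ℝ, 0 < C ∧ ∀ (d m : ℕ) (v : Fin m → E d) (n : ℕ) (u : Fin n → E d),
    (∀ i, u i ∈ Zon v) →
    ∃ ε : Fin n → ℝ, (∀ i, ε i = 1 ∨ ε i = -1) ∧
      ∃ z ∈ Zon v, ∑ i, ε i • u i = (C * √(d : ℝ)) • z := by
  obtain ⟨C, hC, h⟩ := sandwich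
  obtain ⟨D, hD, hcol⟩ := Pool.Agent.W567.Spencer.full_col'
  refine ⟨3 / 2 * (2 * (D * √C) + 1), by positivity, fun d m v n u hu => ?_⟩
  rcases Nat.eq_zero_or_pos d with h0 | hd
  · subst h0
    refine ⟨fun _ => 1, fun _ => Or.inl rfl, 0, ⟨fun _ => 0, fun _ => by norm_num, by simp⟩, ?_⟩
    exact Subsingleton.elim _ _
  obtain ⟨N, w, hN, hwv, hvw⟩ := h d m v
  -- coordinates
  have hco : ∀ i, ∃ t : Fin N → ℝ, (∀ j, t j ∈ Set.Icc (-1 : ℝ) 1) ∧
      u i = (3 / 2 : ℝ) • ∑ j, t j • w j := by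
    intro i
    obtain ⟨y, ⟨t, ht, rfl⟩, hy⟩ := hvw (u i) (hu i)
    exact ⟨t, ht, hy⟩
  choose t ht hut using hco
  -- at most `d` fractional signs
  obtain ⟨x, hx, hxs, hxc⟩ := Pool.Agent.W567.Spencer.few_fractional d n (fun i => (u i).ofLp)
  set M : ℕ := max N d with hM
  have hMle : (M : ℝ) ≤ C * d := by
    rw [hM, Nat.cast_max]
    refine max_le hN ?_
    have : (0 : ℝ) ≤ d := Nat.cast_nonneg d
    nlinarith
  obtain ⟨f, hf⟩ : ∃ f : Fin n → Fin M → ℝ, ∀ i k, f i k = if h : (k : ℕ) < N then t i ⟨k, h⟩ else 0 :=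
    ⟨fun i k => if h : (k : ℕ) < N then t i ⟨k, h⟩ else 0, fun _ _ => rfl⟩
  have hfb : ∀ i k, |f i k| ≤ 1 := by
    intro i k
    rw [hf]
    split_ifs with hk
    · rw [abs_le]; exact ht i _
    · simp
  obtain ⟨ε, hε, hεb⟩ := Pool.Agent.W567.Spencer.lindisc M (D * √(M : ℝ))
    (fun J _ _ g hJ hg => hcol M J g hJ hg) (by positivity) (Fin n) f hfb x hx
    (hxc.trans (le_max_right _ _))
  refine ⟨ε, hε, ?_⟩
  have hsd : 1 ≤ √(d : ℝ) := by
    rw [Real.one_le_sqrt]; exact_mod_cast hd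
  have hB : 2 * (D * √(M : ℝ)) + 1 ≤ (2 * (D * √C) + 1) * √(d : ℝ) := by
    have h1 : √(M : ℝ) ≤ √C * √(d : ℝ) := by
      rw [← Real.sqrt_mul (by linarith)]
      exact Real.sqrt_le_sqrt hMle
    have h2 : D * √(M : ℝ) ≤ D * (√C * √(d : ℝ)) := by gcongr
    nlinarith
  set R : ℝ := (2 * (D * √C) + 1) * √(d : ℝ) with hR
  have hR0 : 0 < R := by positivity
  -- the coordinates of the signed sum
  obtain ⟨s, hs⟩ : ∃ s : Fin N → ℝ, ∀ j, s j = ∑ i, (ε i - x i) * t i j :=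
    ⟨fun j => ∑ i, (ε i - x i) * t i j, fun _ => rfl⟩
  have hsb : ∀ j, |s j| ≤ R := by
    intro j
    have h1 := hεb ⟨j, lt_of_lt_of_le j.2 (le_max_left _ _)⟩
    have h2 : ∀ i, f i ⟨j, lt_of_lt_of_le j.2 (le_max_left _ _)⟩ = t i j := by
      intro i; rw [hf]; simp
    simp only [h2] at h1
    rw [hs]
    exact h1.trans hB
  have hmem : ∑ j, (s j / R) • w j ∈ Zon w := by
    refine ⟨fun j => s j / R, fun j => ?_, rfl⟩
    have h1 := abs_le.mp (hsb j)
    constructor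
    · rw [le_div_iff₀ hR0]; linarith
    · rw [div_le_iff₀ hR0]; linarith
  refine ⟨_, hwv hmem, ?_⟩
  have hxs' : ∑ i, x i • u i = 0 := by
    have h1 : (∑ i, x i • u i).ofLp = ∑ i, x i • (u i).ofLp := by
      simp
    have h2 : (∑ i, x i • u i).ofLp = 0 := by rw [h1]; exact hxs
    ext k
    exact congrFun h2 k
  have h3 : ∑ i, ε i • u i = ∑ i, (ε i - x i) • u i := by
    simp only [sub_smul, Finset.sum_sub_distrib]
    rw [hxs', sub_zero]
  rw [h3]
  have h4 : ∑ i, (ε i - x i) • u i = (3 / 2 : ℝ) • ∑ j, s j • w j := by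
    calc ∑ i, (ε i - x i) • u i = ∑ i, (ε i - x i) • ((3 / 2 : ℝ) • ∑ j, t i j • w j) :=
          Finset.sum_congr rfl fun i _ => by rw [← hut i]
      _ = (3 / 2 : ℝ) • ∑ i, ∑ j, ((ε i - x i) * t i j) • w j := by
          rw [Finset.smul_sum]
          refine Finset.sum_congr rfl fun i _ => ?_
          rw [smul_comm]
          congr 1
          rw [Finset.smul_sum]
          exact Finset.sum_congr rfl fun j _ => by rw [smul_smul]
      _ = (3 / 2 : ℝ) • ∑ j, s j • w j := by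
          rw [Finset.sum_comm]
          congr 1
          refine Finset.sum_congr rfl fun j _ => ?_
          rw [hs, Finset.sum_smul]
  rw [h4]
  have h5 : ∑ j, (s j / R) • w j = (1 / R) • ∑ j, s j • w j := by
    rw [Finset.smul_sum]
    refine Finset.sum_congr rfl fun j _ => ?_
    rw [smul_smul]; congr 1; ring
  rw [h5, smul_smul]
  congr 1
  rw [hR]
  have hne : (2 * (D * √C) + 1) * √(d : ℝ) ≠ 0 := hR0.ne'
  field_simp

end Pool.Agent.H782_VB
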